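import Pool.Agent.W78.GS.Basic
import Pool.Agent.W500.GT.Rest
import Pool.Agent.W358.GT.Fint

/-!
Project GS, task GS-9 (helper500): the resolution for a completely multiplicative function with
values `1` and `-1`, and squarefree triples of both signs.
-/

set_option autoImplicit false

namespace Pool.Agent.W500.GS

open Finset Filter
open Pool.Agent.W78
open Pool.Agent.W78.GT
open Pool.Agent.W500.GT
open Pool.Agent.W78.GS (Pm Pos S_BND S_SQF)
open Pool.Agent.W358.GT (NT_ne exc_zero fib_bound)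

variable {g : ℕ → ℤ} {t c : ℤ}

/-- the signs -/
lemma g_key (hg : Pm g) {q : ℕ} {e f₁ f₂ : Tr} (he : TrOk t c e)
    (h : Rs t q e f₁ f₂) : g (NT f₁) * g (NT f₂) = g (NT e) := by
  obtain ⟨hf1, hf2⟩ := Rs_ok he h
  obtain ⟨hNe, hN1, hN2⟩ := Rs_NT h
  have hN := NT_ne_zero he
  have hx0 : f₁.2.2 ≠ 0 := by have := hf1.2.1; omega
  have hprod : NT f₁ * NT f₂ = NT e * (f₁.2.2 * f₁.2.2) := by
    rw [hN1, hN2, hNe]; ring
  rw [← hg.mul (NT_ne_zero hf1) (NT_ne_zero hf2), hprod, hg.mul hN (Nat.mul_ne_zero hx0 hx0),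
    hg.mul hx0 hx0, hg.mul_self, mul_one]

/-- the resolution -/
theorem rest_of (hg : Pm g) (hG : Good t c) (h1 : S_LOCT t c) (h2 : S_EXC2T t c) (h3 : S_LARGET t c)
    (h4 : S_SIFTT t c) (h5 : S_SQT t c) (h6 : S_VET t c) : GS.S_REST g t c := by
  classical
  intro δ hδ
  obtain ⟨C1, hC1, hexc⟩ := h2
  obtain ⟨C2, _, hsq⟩ := h5
  obtain ⟨C3, hC3, hve⟩ := h6
  obtain ⟨C4, hC4, hsift⟩ := h4
  obtain ⟨A, hlarge⟩ := h3
  obtain ⟨κ, hκ0, hκ1, hκ2⟩ : ∃ κ : ℝ, 0 < κ ∧ κ ≤ 1 ∧ C3 * κ ≤ δ / 8 := by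
    refine ⟨min 1 (δ / (8 * C3)), lt_min one_pos (by positivity), min_le_left _ _, ?_⟩
    have : min 1 (δ / (8 * C3)) ≤ δ / (8 * C3) := min_le_right _ _
    calc C3 * min 1 (δ / (8 * C3)) ≤ C3 * (δ / (8 * C3)) := by gcongr
      _ = δ / 8 := by field_simp
  obtain ⟨lK, hlK, hS0⟩ := exists_S0 (C3 := 8 * C3 * C4 * D4 t c) t c hδ hκ0
  obtain ⟨z, hz5, hz1, hz2⟩ := exists_z (C2 := C2) hC1 hδ hlK
  have hl16 : 0 < Real.log 16 := Real.log_pos (by norm_num)
  obtain ⟨S0, hS0d⟩ : ∃ S0 : ℝ, S0 = lK + z * Real.log 16 + 1 := ⟨_, rfl⟩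
  have hS0n : 0 ≤ S0 := by rw [hS0d]; positivity
  have hS0z := hS0 z
  rw [← hS0d] at hS0z hz2
  have hz1R : (5 : ℝ) ≤ z := by exact_mod_cast hz5
  have hz0 : (0 : ℝ) < z := by linarith
  have hlz : 0 < Real.log z := Real.log_pos (by linarith)
  obtain ⟨RR, QQ, cl, hRR, hclR, hQQ, hper, hlocal⟩ := exists_cand hG h1 z hS0n
  set QV : Tr → Finset ℕ := fun e => QQ (cl e) with hQVd
  have hQV : ∀ e : Tr, ∀ q ∈ QV e, q.Prime ∧ q ≡ 1 [MOD D4 t c] ∧ z ^ 2 < q :=
    fun e q hq => (hQQ _ (hclR e)).1 q hq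
  set UU : Finset ℕ := RR.biUnion QQ with hUUd
  have hUU : ∀ e, QV e ⊆ UU := by
    intro e q hq
    rw [hUUd, mem_biUnion]
    exact ⟨cl e, hclR e, hq⟩
  obtain ⟨tF, eF, qF, F₁, F₂, hF⟩ := exists_data t c z QV
  set D : ℕ := (TT t c z).card * UU.card with hD
  set Qb : ℝ := Kn t c * (∑ q ∈ UU, (q : ℝ)) * z + 1 with hQb
  have hQb1 : 1 ≤ Qb := by
    rw [hQb]
    have : 0 ≤ Kn t c * (∑ q ∈ UU, (q : ℝ)) * z := by positivity
    linarith
  -- eventual statements
  have ev1 : ∀ᶠ X : ℝ in atTop, ∀ s ∈ TT t c z,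
      ((EX t c z QV (A + 1) X (B1 s.1 s.2.1 X) (B2 s.1 s.2.1 X) s.2.2).card : ℝ) ≤
        (C1 * (S0 + 1) / (z * Real.log z) * X) / (s.2.2 : ℝ) ^ 2 := by
    obtain ⟨X₀, hX₀⟩ := hexc z (S0 + 1) QV hz5 (by linarith)
      (fun e f hef => by rw [hQVd]; exact congrArg QQ (hper e f hef)) hQV
      (fun e => (hQQ _ (hclR e)).2.2) (A + 1)
    filter_upwards [eventually_ge_atTop X₀, eventually_ge_atTop (z : ℝ),
      Real.tendsto_log_atTop.eventually_ge_atTop (z : ℝ)] with X hX hXz hlX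
    intro s hs
    obtain ⟨hp, hn⟩ := TT_prop hs
    have hX0 : 0 < X := by linarith
    have hn1 : (1 : ℝ) ≤ s.2.1 := by exact_mod_cast Nat.one_le_iff_ne_zero.2 (TT_ne_zero hs)
    have hnz : (s.2.1 : ℝ) ≤ z := by exact_mod_cast TT_le (by omega) hs
    have hd1 : 1 ≤ X / s.2.1 := by
      rw [le_div_iff₀ (by linarith)]
      linarith
    have hd2 : X / s.2.1 ≤ X * Real.log X := by
      have : X / s.2.1 ≤ X := div_le_self hX0.le hn1
      nlinarith
    have hm1 : 1 ≤ X * s.2.1 := by nlinarith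
    have hm2 : X * s.2.1 ≤ X * Real.log X := by
      gcongr
      linarith
    have hpr : X / s.2.1 * (X * s.2.1) = X ^ 2 := by
      have : (s.2.1 : ℝ) ≠ 0 := by linarith
      field_simp
    have hpr2 : X * s.2.1 * (X / s.2.1) = X ^ 2 := by
      have : (s.2.1 : ℝ) ≠ 0 := by linarith
      field_simp
    have hb1 : 1 ≤ B1 s.1 s.2.1 X ∧ B1 s.1 s.2.1 X ≤ X * Real.log X := by
      unfold B1
      split_ifs
      · exact ⟨hm1, hm2⟩
      · exact ⟨hd1, hd2⟩
    have hb2 : 1 ≤ B2 s.1 s.2.1 X ∧ B2 s.1 s.2.1 X ≤ X * Real.log X := by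
      unfold B2
      split_ifs
      · exact ⟨hd1, hd2⟩
      · exact ⟨hm1, hm2⟩
    have hb12 : B1 s.1 s.2.1 X * B2 s.1 s.2.1 X ≤ X ^ 2 := by
      unfold B1 B2
      split_ifs
      · exact hpr2.le
      · exact hpr.le
    have := hX₀ X (B1 s.1 s.2.1 X) (B2 s.1 s.2.1 X) hX hb1.1 hb2.1 hb12 hb1.2 hb2.2 s.2.2 hp
    unfold EX
    exact this
  have ev2 : ∀ᶠ X : ℝ in atTop, (((tri t c X X).filter
      (fun e => ∃ l : ℕ, l.Prime ∧ z < l ∧ l ^ 2 ∣ NT e)).card : ℝ) ≤ C2 / z * X := by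
    obtain ⟨X₀, hX₀⟩ := hsq z (by omega)
    filter_upwards [eventually_ge_atTop X₀] with X hX
    exact hX₀ X hX
  have ev3 : ∀ᶠ X : ℝ in atTop, ∀ r ∈ RR,
      (((rts t c X).filter (fun e => ∀ q ∈ QQ r, ¬ q ∣ e.1)).card : ℝ) ≤
        C4 * (∏ q ∈ QQ r, (1 - 1 / (q : ℝ))) * X := by
    rw [Filter.eventually_all_finset]
    intro r hr
    obtain ⟨X₀, hX₀⟩ := hsift (QQ r)
      (fun q hq => ⟨((hQQ r hr).1 q hq).1, ((hQQ r hr).1 q hq).2.1⟩)
    filter_upwards [eventually_ge_atTop X₀] with X hX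
    exact hX₀ X hX
  have ev4 : ∀ᶠ X : ℝ in atTop, (((tri t c (Qb * X) (Qb * X)).filter
      (fun e => ∃ l : ℕ, l.Prime ∧ Real.log (Qb * X) ^ A < (l : ℝ) ∧ l ^ 2 ∣ NT e)).card : ℝ) ≤
        δ / (16 * (D + 1) * Qb) * (Qb * X) := by
    obtain ⟨X₀, hX₀⟩ := hlarge (δ / (16 * (D + 1) * Qb)) (by positivity)
    filter_upwards [eventually_ge_atTop X₀, eventually_ge_atTop 0] with X hX hX0
    apply hX₀
    nlinarith
  obtain ⟨X₀, hX₀⟩ := eventually_atTop.1 (((((ev1.and ev2).and ev3).and ev4).and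
    (eventually_ge_atTop Qb)).and (Real.tendsto_log_atTop.eventually_ge_atTop ((2 : ℝ) ^ A)))
  refine ⟨Qb, D, X₀, hQb1, fun X hX => ?_⟩
  obtain ⟨⟨⟨⟨⟨e1, e2⟩, e3⟩, e4⟩, e5⟩, e6⟩ := hX₀ X hX
  have hX1 : 1 ≤ X := hQb1.trans e5
  have hX0 : 0 ≤ X := by linarith
  -- the exceptional sets
  obtain ⟨G1, hG1⟩ : ∃ G : Finset Tr, G = (tri t c X X).filter
      (fun e => ∃ l : ℕ, l.Prime ∧ z < l ∧ l ^ 2 ∣ NT e) := ⟨_, rfl⟩
  obtain ⟨V, hV⟩ : ∃ V : ℕ → Finset (ℕ × ℤ), V = fun r =>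
    (rts t c X).filter (fun e => ∀ q ∈ QQ r, ¬ q ∣ e.1) := ⟨_, rfl⟩
  obtain ⟨G2, hG2⟩ : ∃ G : Finset Tr, G = (tri t c X X).filter
      (fun e => vx e ∈ RR.biUnion V ∨ vy e ∈ RR.biUnion V) := ⟨_, rfl⟩
  obtain ⟨G3, hG3⟩ : ∃ G : Finset Tr, G = E3 t c z QV (A + 1) X := ⟨_, rfl⟩
  obtain ⟨LG, hLG⟩ : ∃ G : Finset Tr, G = (tri t c (Qb * X) (Qb * X)).filter
      (fun e => ∃ l : ℕ, l.Prime ∧ Real.log (Qb * X) ^ A < (l : ℝ) ∧ l ^ 2 ∣ NT e) := ⟨_, rfl⟩
  obtain ⟨U, hU⟩ : ∃ G : Finset Tr, G = (tri t c X X).filter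
      (fun e => e ∉ G1 ∧ e ∉ G2) := ⟨_, rfl⟩
  obtain ⟨G4, hG4⟩ : ∃ G : Finset Tr, G = U.filter
      (fun e => F₁ e ∈ LG) ∪ U.filter (fun e => F₂ e ∈ LG) := ⟨_, rfl⟩
  rw [← hG1] at e2
  rw [← hLG] at e4
  have e3' : ∀ r ∈ RR, ((V r).card : ℝ) ≤ C4 * (∏ q ∈ QQ r, (1 - 1 / (q : ℝ))) * X := by
    rw [hV]
    exact e3
  -- data on `U`
  have hdata : ∀ e ∈ U, Pd t c z QV e (tF e) (eF e) (qF e) (F₁ e) (F₂ e) := by
    intro e he
    apply hF
    rw [hU, mem_filter] at he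
    obtain ⟨hed, h1', h2'⟩ := he
    have hok := (mem_tri'.1 hed).1
    have hsq' : ¬ ∃ l : ℕ, l.Prime ∧ z < l ∧ l ^ 2 ∣ NT e := by
      intro hcon
      apply h1'
      rw [hG1, mem_filter]
      exact ⟨hed, hcon⟩
    obtain ⟨s, hs, e', hT, hte⟩ := exists_type hG hok hsq'
    have he1 : vx e ∉ RR.biUnion V := by
      intro hcon
      apply h2'
      rw [hG2, mem_filter]
      exact ⟨hed, Or.inl hcon⟩
    have hex : ∃ q ∈ QQ (cl e'), q ∣ e.1 := by
      by_contra hcon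
      push Not at hcon
      apply he1
      rw [mem_biUnion]
      refine ⟨cl e', hclR _, ?_⟩
      rw [hV, mem_filter]
      exact ⟨vx_mem hed, hcon⟩
    obtain ⟨q, hq, hqd⟩ := hex
    have hqp := hQV _ q hq
    have hnq : ¬ q ∣ s.2.1 := by
      intro hcon
      have hle := TT_le (by omega) hs
      have h0 : 0 < s.2.1 := Nat.pos_of_ne_zero (TT_ne_zero hs)
      have := Nat.le_of_dvd h0 hcon
      nlinarith [hqp.2.2]
    have hd' := dvd_Tm hT hqp.1 hnq hqd
    obtain ⟨f₁, f₂, hR⟩ := Rs_of_dvd (Tm_ok hT hok) hd'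
    exact ⟨s, e', q, _, _, hs, hT, hte, hq, hd', hR⟩
  have hmult := mult_key hUU hQV U hdata
  have hsize : ∀ e ∈ U, F₁ e ∈ tri t c (Qb * X) (Qb * X) ∧ F₂ e ∈ tri t c (Qb * X) (Qb * X) := by
    intro e he
    have hed : e ∈ tri t c X X := by
      rw [hU, mem_filter] at he
      exact he.1
    exact size_all hz5 hUU hQV hX1 hed (hdata e he)
  -- the exceptional set is small
  have c1 : (G1.card : ℝ) ≤ δ / 8 * X := by
    refine e2.trans ?_
    gcongr
  have c2 : (G2.card : ℝ) ≤ δ / 4 * X := by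
    refine card_E2 (V := V) (S0 := S0) (QQ := QQ) hC3 hC4 hκ0 hκ2 hX0
      hS0z hRR ?_ e3' ?_
    · intro r hr
      exact ⟨fun q hq => ((hQQ r hr).1 q hq).1, (hQQ r hr).2.1⟩
    · rw [hG2]
      refine hve κ X (RR.biUnion V) hκ0 hκ1 hX1 ?_
      intro v hv
      rw [mem_biUnion] at hv
      obtain ⟨r, _, hv⟩ := hv
      rw [hV, mem_filter] at hv
      exact hv.1
  have c3 : (G3.card : ℝ) ≤ δ / 8 * X := by
    have hb : 0 ≤ C1 * (S0 + 1) / (z * Real.log z) * X := by positivity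
    have := card_E3 hb e1
    rw [← hG3] at this
    refine this.trans ?_
    calc 6 * (C1 * (S0 + 1) / (z * Real.log z) * X)
        = 6 * (C1 * (S0 + 1) / (z * Real.log z)) * X := by ring
      _ ≤ δ / 8 * X := by gcongr
  have c4 : (G4.card : ℝ) ≤ δ / 8 * X := by
    have hA : (U.filter (fun e => F₁ e ∈ LG)).card ≤ D * LG.card := by
      apply Finset.card_le_mul_card_image_of_maps_to (f := F₁)
      · intro e he
        rw [mem_filter] at he
        exact he.2
      · intro f _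
        refine le_trans (Finset.card_le_card ?_) (hmult f).1
        intro e he
        rw [mem_filter, mem_filter] at he
        rw [mem_filter]
        exact ⟨he.1.1, he.2⟩
    have hB : (U.filter (fun e => F₂ e ∈ LG)).card ≤ D * LG.card := by
      apply Finset.card_le_mul_card_image_of_maps_to (f := F₂)
      · intro e he
        rw [mem_filter] at he
        exact he.2
      · intro f _
        refine le_trans (Finset.card_le_card ?_) (hmult f).2
        intro e he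
        rw [mem_filter, mem_filter] at he
        rw [mem_filter]
        exact ⟨he.1.1, he.2⟩
    have hC : G4.card ≤ 2 * D * LG.card := by
      have := Finset.card_union_le (U.filter (fun e => F₁ e ∈ LG)) (U.filter (fun e => F₂ e ∈ LG))
      rw [← hG4] at this
      calc G4.card ≤ _ := this
        _ ≤ D * LG.card + D * LG.card := Nat.add_le_add hA hB
        _ = 2 * D * LG.card := by ring
    have hC' : (G4.card : ℝ) ≤ 2 * D * LG.card := by exact_mod_cast hC
    calc (G4.card : ℝ) ≤ 2 * D * LG.card := hC'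
      _ ≤ 2 * (D + 1) * (δ / (16 * (D + 1) * Qb) * (Qb * X)) := by
          gcongr
          linarith
      _ = δ / 8 * X := by
          have h1' : Qb ≠ 0 := by linarith
          have h2' : ((D : ℝ) + 1) ≠ 0 := by positivity
          field_simp
          ring
  refine ⟨G1 ∪ G2 ∪ G3 ∪ G4, F₁, F₂, ?_, ?_, ?_⟩
  · have h7 : (G1 ∪ G2 ∪ G3 ∪ G4).card ≤ G1.card + G2.card + G3.card + G4.card := by
      refine (Finset.card_union_le _ _).trans ?_
      refine Nat.add_le_add_right ?_ _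
      refine (Finset.card_union_le _ _).trans ?_
      refine Nat.add_le_add_right ?_ _
      exact Finset.card_union_le _ _
    have h8 : ((G1 ∪ G2 ∪ G3 ∪ G4).card : ℝ) ≤ G1.card + G2.card + G3.card + G4.card := by
      exact_mod_cast h7
    have h9 : 0 ≤ δ * X := by positivity
    linarith
  · intro e hed heE
    simp only [mem_union, not_or] at heE
    obtain ⟨⟨⟨n1, n2⟩, n3⟩, n4⟩ := heE
    have heU : e ∈ U := by
      rw [hU, mem_filter]
      exact ⟨hed, n1, n2⟩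
    have hP := hdata e heU
    obtain ⟨ht, hT, hte, hq, hqd, hR⟩ := hP
    have hs := hsize e heU
    have hok := (mem_tri'.1 hed).1
    have hok' : TrOk t c (eF e) := Tm_ok hT hok
    have hNN := Tm_NT hT
    have hqp := hQV _ _ hq
    have hlog := log_key hQb1 e5 e6
    have hx := local_key hG (L := Real.log X ^ (A + 1)) (z := z) hok' hR
      (fun l hl hlz => hlocal (eF e) hok' (qF e) hq l hl hlz)
      (by
        intro l hl hzl hlL hlx hcon
        apply n3
        rw [hG3]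
        unfold E3
        rw [mem_filter]
        refine ⟨hed, tF e, ht, eF e, hT, ?_⟩
        unfold EX
        rw [mem_filter]
        refine ⟨Tm_tri (TT_ne_zero ht) hT hed, ?_, qF e, hq, hqd, l, hl, hzl, hlL,
          ((F₁ e).2.2 : ℤ), Rs_MM hR, Int.natCast_dvd_natCast.2 hlx, ?_⟩
        · rcases hte with ⟨h1', _⟩ | ⟨_, h2', h3'⟩
          · rw [h1']
            exact ⟨one_dvd _, one_dvd _⟩
          · exact ⟨h2', h3'⟩
        · rcases hcon with hcon | hcon
          · exact Or.inl hcon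
          · right
            have : ((l ^ 2 : ℕ) : ℤ) ∣ ((F₁ e).2.2 : ℤ) := Int.natCast_dvd_natCast.2 hcon
            push_cast at this
            exact this)
      (by
        intro l hl hL
        have n4' : F₁ e ∉ LG ∧ F₂ e ∉ LG := by
          constructor
          · intro hcon
            apply n4
            rw [hG4, mem_union]
            left
            rw [mem_filter]
            exact ⟨heU, hcon⟩
          · intro hcon
            apply n4
            rw [hG4, mem_union]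
            right
            rw [mem_filter]
            exact ⟨heU, hcon⟩
        constructor
        · intro hcon
          apply n4'.1
          rw [hLG, mem_filter]
          exact ⟨hs.1, l, hl, lt_of_le_of_lt hlog hL, hcon⟩
        · intro hcon
          apply n4'.2
          rw [hLG, mem_filter]
          exact ⟨hs.2, l, hl, lt_of_le_of_lt hlog hL, hcon⟩)
    have hqne : qF e ≠ (tF e).2.2 := by
      intro hcon
      obtain ⟨hp, _⟩ := TT_prop ht
      rcases hp with hp | hp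
      · rw [hp] at hcon
        have := hqp.1.one_lt
        omega
      · have h1' := hp.2
        rw [← hcon] at h1'
        nlinarith [hqp.2.2]
    rw [← hNN]
    rw [← hNN] at hte
    have hexc' := exc_key hok' hqp.1 hqne hR hx hte
    exact ⟨hs.1, hs.2, g_key hg hok' hR, hexc'.1, hexc'.2⟩
  · intro f
    constructor
    · refine le_trans (Finset.card_le_card ?_) (hmult f).1
      intro e he
      rw [mem_filter] at he ⊢
      obtain ⟨hed, hnE, hf⟩ := he
      simp only [mem_union, not_or] at hnE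
      refine ⟨?_, hf⟩
      rw [hU, mem_filter]
      exact ⟨hed, hnE.1.1.1, hnE.1.1.2⟩
    · refine le_trans (Finset.card_le_card ?_) (hmult f).2
      intro e he
      rw [mem_filter] at he ⊢
      obtain ⟨hed, hnE, hf⟩ := he
      simp only [mem_union, not_or] at hnE
      refine ⟨?_, hf⟩
      rw [hU, mem_filter]
      exact ⟨hed, hnE.1.1.1, hnE.1.1.2⟩



open scoped Classical in
/-- triples with excess at most `k` and sign `s` -/
noncomputable def Bk (g : ℕ → ℤ) (t c : ℤ) (k : ℕ) (s : ℤ) (X : ℝ) : Finset Tr :=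
  (tri t c X X).filter (fun e => exc (NT e) ≤ k ∧ g (NT e) = s)

lemma mem_Bk {k : ℕ} {s : ℤ} {X : ℝ} {e : Tr} :
    e ∈ Bk g t c k s X ↔ e ∈ tri t c X X ∧ exc (NT e) ≤ k ∧ g (NT e) = s := by
  simp [Bk]

/-- one step of the resolution -/
lemma res_step (hg : Pm g) (hres : GS.S_REST g t c) (δ : ℝ) (hδ : 0 < δ) :
    ∃ (Q D X₀ : ℝ), 1 ≤ Q ∧ 1 ≤ D ∧
    ∀ X : ℝ, X₀ ≤ X → ∀ k : ℕ, ((Bk g t c (k + 1) (-1) X).card : ℝ) ≤
      δ * X + D * ((Bk g t c k (-1) (Q * X)).card : ℝ) := by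
  classical
  obtain ⟨Q, D, X₀, hQ, h⟩ := hres δ hδ
  refine ⟨Q, 2 * D + 1, X₀, hQ, by have : (0 : ℝ) ≤ D := Nat.cast_nonneg _
                                   linarith, fun X hX k => ?_⟩
  obtain ⟨E, F₁, F₂, hE, hF, hD⟩ := h X hX
  set S := Bk g t c (k + 1) (-1) X with hS
  set T := Bk g t c k (-1) (Q * X) with hT
  have hcov : S ⊆ E ∪ (((tri t c X X).filter (fun e => e ∉ E)).filter (fun e => F₁ e ∈ T) ∪
      ((tri t c X X).filter (fun e => e ∉ E)).filter (fun e => F₂ e ∈ T)) := by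
    intro e he
    rw [hS, mem_Bk] at he
    obtain ⟨he1, he2, he3⟩ := he
    by_cases hEe : e ∈ E
    · exact mem_union_left _ hEe
    · obtain ⟨f1, f2, f3, f4, f5⟩ := hF e he1 hEe
      rw [he3] at f3
      refine mem_union_right _ ?_
      simp only [mem_union, mem_filter]
      rw [hT, mem_Bk, mem_Bk]
      rcases hg.val (NT (F₁ e)) with h6 | h6
      · right
        refine ⟨⟨he1, hEe⟩, f2, by omega, ?_⟩
        rw [h6, one_mul] at f3
        exact f3
      · left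
        exact ⟨⟨he1, hEe⟩, f1, by omega, h6⟩
  have h1 := fib_bound (S := tri t c X X) (T := T) (E := E) (F := F₁) (D := D) (fun f => (hD f).1)
  have h2 := fib_bound (S := tri t c X X) (T := T) (E := E) (F := F₂) (D := D) (fun f => (hD f).2)
  have h3 : (S.card : ℝ) ≤ E.card +
      ((((tri t c X X).filter (fun e => e ∉ E)).filter (fun e => F₁ e ∈ T)).card +
      (((tri t c X X).filter (fun e => e ∉ E)).filter (fun e => F₂ e ∈ T)).card) := by
    exact_mod_cast (card_le_card hcov).trans ((card_union_le _ _).trans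
      (Nat.add_le_add_left (card_union_le _ _) _))
  have hT0 : (0 : ℝ) ≤ T.card := Nat.cast_nonneg _
  linarith

/-- the iterated resolution -/
lemma res_iter (hg : Pm g) (hres : GS.S_REST g t c) (k : ℕ) : ∀ δ : ℝ, 0 < δ →
    ∃ (Q D X₀ : ℝ), 1 ≤ Q ∧ 1 ≤ D ∧
    ∀ X : ℝ, X₀ ≤ X → ((Bk g t c k (-1) X).card : ℝ) ≤
      δ * X + D * ((Bk g t c 0 (-1) (Q * X)).card : ℝ) := by
  induction k with
  | zero =>
    intro δ hδ
    refine ⟨1, 1, 0, le_rfl, le_rfl, fun X hX => ?_⟩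
    rw [one_mul, one_mul]
    have : 0 ≤ δ * X := by positivity
    linarith
  | succ k ih =>
    intro δ hδ
    obtain ⟨Q, D, X₀, hQ, hD, h⟩ := res_step hg hres (δ / 2) (by linarith)
    obtain ⟨Q', D', X₀', hQ', hD', h'⟩ := ih (δ / (2 * D * Q)) (by positivity)
    refine ⟨Q' * Q, D * D', max (max X₀ X₀') 0, by nlinarith, by nlinarith, fun X hX => ?_⟩
    have hX0 : X₀ ≤ X := (le_max_left _ _).trans ((le_max_left _ _).trans hX)
    have hX0' : X₀' ≤ X := (le_max_right _ _).trans ((le_max_left _ _).trans hX)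
    have hXp : 0 ≤ X := (le_max_right _ _).trans hX
    have h1 := h X hX0 k
    have h2 := h' (Q * X) (by nlinarith)
    have h3 : D * ((Bk g t c k (-1) (Q * X)).card : ℝ) ≤
        D * (δ / (2 * D * Q) * (Q * X) + D' * ((Bk g t c 0 (-1) (Q' * (Q * X))).card : ℝ)) :=
      mul_le_mul_of_nonneg_left h2 (by linarith)
    have h4 : D * (δ / (2 * D * Q) * (Q * X)) = δ / 2 * X := by
      field_simp
    rw [mul_assoc Q' Q X]
    nlinarith

/-- the excess of an integer without large square divisors -/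
lemma exc_le_of {m S : ℕ} (hm : m ≠ 0) (h : ∀ q : ℕ, q ^ 2 ∣ m → q ≤ S) : exc m ≤ 2 * S := by
  obtain ⟨a, b, hab, ha⟩ := Nat.sq_mul_squarefree m
  have hb0 : b ≠ 0 := by
    rintro rfl
    apply hm
    rw [← hab]; simp
  have ha0 : a ≠ 0 := ha.ne_zero
  have hbS : b ≤ S := h b ⟨a, hab.symm⟩
  have hΩ : ArithmeticFunction.cardFactors m =
      2 * ArithmeticFunction.cardFactors b + ArithmeticFunction.cardFactors a := by
    rw [← hab, ArithmeticFunction.cardFactors_mul (pow_ne_zero 2 hb0) ha0,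
      ArithmeticFunction.cardFactors_pow]
  have hω : ArithmeticFunction.cardFactors a ≤ ArithmeticFunction.cardDistinctFactors m := by
    rw [← (ArithmeticFunction.cardDistinctFactors_eq_cardFactors_iff_squarefree ha0).2 ha]
    rw [ArithmeticFunction.cardDistinctFactors_apply, ArithmeticFunction.cardDistinctFactors_apply,
      ← List.card_toFinset, ← List.card_toFinset]
    apply Finset.card_le_card
    exact Nat.primeFactors_mono ⟨b ^ 2, by rw [mul_comm]; exact hab.symm⟩ hm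
  have hb : ArithmeticFunction.cardFactors b ≤ b := by
    have h1 : 2 ^ ArithmeticFunction.cardFactors b ≤ b := by
      rw [ArithmeticFunction.cardFactors_apply]
      calc 2 ^ b.primeFactorsList.length ≤ b.primeFactorsList.prod :=
            List.pow_card_le_prod _ _ (fun x hx => (Nat.prime_of_mem_primeFactorsList hx).two_le)
        _ = b := Nat.prod_primeFactorsList hb0
    exact (Nat.lt_two_pow_self).le.trans h1
  unfold exc
  omega

/-- a positive proportion of squarefree triples with sign `-1` -/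
lemma bk_neg (hg : Pm g) (hb : S_BND g t c) (hres : GS.S_REST g t c) :
    ∃ κ X₀ : ℝ, 0 < κ ∧ ∀ X : ℝ, X₀ ≤ X → κ * X ≤ ((Bk g t c 0 (-1) X).card : ℝ) := by
  classical
  obtain ⟨S, hS⟩ := hb
  obtain ⟨ε, hε, X₁, hsc⟩ := hS (-1) (Or.inr rfl)
  obtain ⟨Q, D, X₃, hQ, hD, hit⟩ := res_iter hg hres (2 * S) (ε / 2) (by linarith)
  refine ⟨ε / (2 * D * Q), Q * max X₁ X₃, by positivity, fun X' hX' => ?_⟩
  obtain ⟨X, rfl⟩ : ∃ X : ℝ, X' = Q * X := ⟨X' / Q, by field_simp⟩
  have hX : max X₁ X₃ ≤ X := le_of_mul_le_mul_left hX' (by linarith)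
  have hX1 : X₁ ≤ X := (le_max_left _ _).trans hX
  have hX3 : X₃ ≤ X := (le_max_right _ _).trans hX
  have h1 := hsc X hX1
  have h3 := hit X hX3
  have h4 : (((tri t c X X).filter (fun e => (∀ q : ℕ, q ^ 2 ∣ NT e → q ≤ S) ∧
      g (NT e) = -1)).card : ℝ) ≤ ((Bk g t c (2 * S) (-1) X).card : ℝ) := by
    have : (tri t c X X).filter (fun e => (∀ q : ℕ, q ^ 2 ∣ NT e → q ≤ S) ∧
      g (NT e) = -1) ⊆ Bk g t c (2 * S) (-1) X := by
      intro e he
      rw [mem_filter] at he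
      obtain ⟨h5, h6, h7⟩ := he
      rw [mem_Bk]
      exact ⟨h5, exc_le_of (NT_ne h5) h6, h7⟩
    exact_mod_cast card_le_card this
  have h1' : ε * X ≤ (((tri t c X X).filter (fun e => (∀ q : ℕ, q ^ 2 ∣ NT e → q ≤ S) ∧
      g (NT e) = -1)).card : ℝ) := by convert h1
  have h5 : ε / 2 * X ≤ D * ((Bk g t c 0 (-1) (Q * X)).card : ℝ) := by linarith
  have h6 : ε / (2 * D * Q) * (Q * X) = (ε / 2 * X) / D := by field_simp
  rw [h6, div_le_iff₀ (by linarith)]
  linarith

/-- a positive proportion of squarefree triples with sign `+1` -/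
lemma bk_pos (hg : Pm g)
    (hneg : ∃ κ X₀ : ℝ, 0 < κ ∧ ∀ X : ℝ, X₀ ≤ X → κ * X ≤ ((Bk g t c 0 (-1) X).card : ℝ))
    (hres : GS.S_REST g t c) :
    ∃ κ X₀ : ℝ, 0 < κ ∧ ∀ X : ℝ, X₀ ≤ X → κ * X ≤ ((Bk g t c 0 1 X).card : ℝ) := by
  classical
  obtain ⟨κ, X₁, hc, hneg⟩ := hneg
  obtain ⟨Q, D, X₂, hQ, h⟩ := hres (κ / 2) (by linarith)
  have hD0 : (0 : ℝ) ≤ D := Nat.cast_nonneg _
  refine ⟨κ / (2 * (2 * D + 1) * Q), Q * max (max X₁ X₂) 0, by positivity, fun X' hX' => ?_⟩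
  obtain ⟨X, rfl⟩ : ∃ X : ℝ, X' = Q * X := ⟨X' / Q, by field_simp⟩
  have hX : max (max X₁ X₂) 0 ≤ X := le_of_mul_le_mul_left hX' (by linarith)
  have hX1 : X₁ ≤ X := (le_max_left _ _).trans ((le_max_left _ _).trans hX)
  have hX2 : X₂ ≤ X := (le_max_right _ _).trans ((le_max_left _ _).trans hX)
  have hX0 : 0 ≤ X := (le_max_right _ _).trans hX
  obtain ⟨E, F₁, F₂, hE, hF, hD⟩ := h X hX2
  set S := Bk g t c 0 (-1) X with hS
  set T := Bk g t c 0 1 (Q * X) with hT
  have hcov : S ⊆ E ∪ (((tri t c X X).filter (fun e => e ∉ E)).filter (fun e => F₁ e ∈ T) ∪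
      ((tri t c X X).filter (fun e => e ∉ E)).filter (fun e => F₂ e ∈ T)) := by
    intro e he
    rw [hS, mem_Bk] at he
    obtain ⟨he1, he2, he3⟩ := he
    by_cases hEe : e ∈ E
    · exact mem_union_left _ hEe
    · obtain ⟨f1, f2, f3, f4, f5⟩ := hF e he1 hEe
      rw [he3] at f3
      refine mem_union_right _ ?_
      simp only [mem_union, mem_filter]
      rw [hT, mem_Bk, mem_Bk]
      rcases hg.val (NT (F₁ e)) with h6 | h6
      · left
        exact ⟨⟨he1, hEe⟩, f1, by omega, h6⟩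
      · right
        refine ⟨⟨he1, hEe⟩, f2, by omega, ?_⟩
        rw [h6] at f3
        linarith
  have h1 := fib_bound (S := tri t c X X) (T := T) (E := E) (F := F₁) (D := D) (fun f => (hD f).1)
  have h2 := fib_bound (S := tri t c X X) (T := T) (E := E) (F := F₂) (D := D) (fun f => (hD f).2)
  have h3 : (S.card : ℝ) ≤ E.card +
      ((((tri t c X X).filter (fun e => e ∉ E)).filter (fun e => F₁ e ∈ T)).card +
      (((tri t c X X).filter (fun e => e ∉ E)).filter (fun e => F₂ e ∈ T)).card) := by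
    exact_mod_cast (card_le_card hcov).trans ((card_union_le _ _).trans
      (Nat.add_le_add_left (card_union_le _ _) _))
  have hT0 : (0 : ℝ) ≤ T.card := Nat.cast_nonneg _
  have h4 := hneg X hX1
  have h5 : κ / 2 * X ≤ (2 * D + 1) * (T.card : ℝ) := by nlinarith
  have h6 : κ / (2 * (2 * D + 1) * Q) * (Q * X) = (κ / 2 * X) / (2 * D + 1) := by field_simp
  rw [h6, div_le_iff₀ (by linarith)]
  linarith

/-- SQF: a positive proportion of squarefree triples of both signs -/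
theorem sqf_of (hg : Pm g) (_hns : ¬ IsSquare (t ^ 2 - 4 * c)) (hb : S_BND g t c)
    (hrest : GS.S_REST g t c) : S_SQF g t c := by
  classical
  have hneg := bk_neg hg hb hrest
  have hpos := bk_pos hg hneg hrest
  have key : ∀ s : ℤ, (∃ κ X₀ : ℝ, 0 < κ ∧ ∀ X : ℝ, X₀ ≤ X →
      κ * X ≤ ((Bk g t c 0 s X).card : ℝ)) →
      Pos t c (fun m => Squarefree m ∧ g m = s) := by
    rintro s ⟨κ, X₀, hκ, h⟩
    refine ⟨κ, hκ, X₀, fun X hX => (h X hX).trans ?_⟩
    have : Bk g t c 0 s X ⊆ (tri t c X X).filter (fun e => Squarefree (NT e) ∧ g (NT e) = s) := by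
      intro e he
      rw [mem_Bk] at he
      obtain ⟨h1, h2, h3⟩ := he
      rw [mem_filter]
      exact ⟨h1, (exc_zero (NT_ne h1)).1 (by omega), h3⟩
    have h4 : ((Bk g t c 0 s X).card : ℝ) ≤ (((tri t c X X).filter
        (fun e => Squarefree (NT e) ∧ g (NT e) = s)).card : ℝ) := by
      exact_mod_cast card_le_card this
    refine h4.trans (le_of_eq ?_)
    congr!
  rintro s (rfl | rfl)
  · exact key 1 hpos
  · exact key (-1) hneg

end Pool.Agent.W500.GS
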